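import Pool.Agent.Lib.MP_572a82_pr.Frag

open Filter

namespace Pool.Agent.Results.MP_572a82_pr.FragLimsup

/-- A set `A` of graphs on the vertex set `V` is bridge-addable if, whenever `G ∈ A` and `u`, `v`
are vertices in different components of `G`, the graph `G ∪ {uv}` also lies in `A`. -/
def BridgeAddable {V : Type*} (A : Set (SimpleGraph V)) : Prop :=
  ∀ G ∈ A, ∀ u v : V, ¬ G.Reachable u v → G ⊔ SimpleGraph.edge u v ∈ A

/-- `frag G`: the number of vertices of `G` that are not in a largest component. -/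
noncomputable def frag {n : ℕ} (G : SimpleGraph (Fin n)) : ℕ :=
  n - ⨆ C : G.ConnectedComponent, C.supp.ncard

/-- The expected value of `frag R` for `R` drawn uniformly at random from `A`. -/
noncomputable def expFrag {n : ℕ} (A : Set (SimpleGraph (Fin n))) : ℝ :=
  (∑ᶠ G ∈ A, (frag G : ℝ)) / (A.ncard : ℝ)

lemma frag_eq {n : ℕ} (G : SimpleGraph (Fin n)) :
    frag G = Pool.Agent.Lib.MP_572a82_pr.fr G := by
  classical
  unfold frag Pool.Agent.Lib.MP_572a82_pr.fr
  rw [Fintype.card_fin]
  congr 1
  have hsupp : ∀ v : Fin n, (G.connectedComponentMk v).supp.ncard =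
      (Pool.Agent.Lib.MP_572a82_pr.comp G v).card := by
    intro v
    rw [← Set.ncard_coe_finset]
    congr 1
    ext w
    simp only [SimpleGraph.ConnectedComponent.mem_supp_iff, Finset.mem_coe,
      Pool.Agent.Lib.MP_572a82_pr.mem_comp, SimpleGraph.ConnectedComponent.eq]
    exact ⟨fun h => h.symm, fun h => h.symm⟩
  have hbdd : BddAbove (Set.range fun C : G.ConnectedComponent => C.supp.ncard) :=
    Set.finite_range _ |>.bddAbove
  apply le_antisymm
  · rcases isEmpty_or_nonempty G.ConnectedComponent with h | h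
    · simp
    · apply ciSup_le
      intro C
      induction C using SimpleGraph.ConnectedComponent.ind with
      | h v =>
        rw [hsupp v]
        exact Pool.Agent.Lib.MP_572a82_pr.comp_le_cm G v
  · unfold Pool.Agent.Lib.MP_572a82_pr.cm
    apply Finset.sup_le
    intro v _
    rw [← hsupp v]
    exact le_ciSup hbdd (G.connectedComponentMk v)

/-- Explicit bound, valid for every nonempty bridge-addable set of graphs on `n` vertices. -/
theorem expFrag_le {n : ℕ} (A : Set (SimpleGraph (Fin n))) (hne : A.Nonempty)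
    (hA : BridgeAddable A) (ε : ℝ) (hε : 0 < ε) (hε1 : ε < 1) (hn : 1 ≤ n)
    (hn4 : 4 ≤ ε * n) :
    expFrag A ≤ 1 / (1 - ε) + 8 / (ε ^ 2 * n) + 24 * (4 / ε) ^ 7 / (Nat.log 2 n + 1) := by
  classical
  unfold expFrag
  have hfin : A.Finite := Set.toFinite A
  rw [finsum_mem_eq_finite_toFinset_sum _ hfin, Set.ncard_eq_toFinset_card A hfin]
  have hcard : (0 : ℝ) < hfin.toFinset.card := by
    have : 0 < hfin.toFinset.card := by
      rw [Finset.card_pos]
      exact (Set.Finite.toFinset_nonempty hfin).mpr hne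
    exact_mod_cast this
  rw [div_le_iff₀ hcard]
  have hJ : 2 ^ (Nat.log 2 n) ≤ Fintype.card (Fin n) := by
    rw [Fintype.card_fin]
    exact Nat.pow_log_le_self 2 (by omega)
  have := Pool.Agent.Lib.MP_572a82_pr.main_bound hfin.toFinset
    (by
      intro G hG u v huv
      simp only [Set.Finite.coe_toFinset] at hG ⊢
      exact hA G hG u v huv) ε hε hε1 (Nat.log 2 n) hJ (by rw [Fintype.card_fin]; exact hn4)
  simp only [Fintype.card_fin] at this
  simp_rw [frag_eq]
  linarith

lemma tendsto_log : Tendsto (fun n : ℕ => (Nat.log 2 n : ℝ)) atTop atTop := by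
  have h : Tendsto (fun n : ℕ => Nat.log 2 n) atTop atTop := by
    rw [tendsto_atTop_atTop]
    intro b
    refine ⟨2 ^ b, fun a ha => ?_⟩
    exact Nat.le_log_of_pow_le (by norm_num) ha
  exact tendsto_natCast_atTop_atTop.comp h

/-- **McDiarmid's question on the expected fragment size.**
For every bridge-addable set of graphs, `limsup E[frag(R_n)] ≤ 1`. -/
theorem result (𝒜 : ∀ n : ℕ, Set (SimpleGraph (Fin n)))
    (hne : ∀ n, 1 ≤ n → (𝒜 n).Nonempty) (hadd : ∀ n, BridgeAddable (𝒜 n)) :
    limsup (fun n : ℕ => ((expFrag (𝒜 n) : ℝ) : EReal)) atTop ≤ 1 := by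
  apply le_of_forall_gt_imp_ge_of_dense
  intro c hc
  induction c with
  | bot => exact absurd hc (by simp)
  | top => exact le_top
  | coe c =>
    have hc' : (1 : ℝ) < c := by exact_mod_cast hc
    set ε : ℝ := (c - 1) / (2 * c) with hε
    have hε0 : 0 < ε := by
      rw [hε]; apply div_pos <;> linarith
    have hε1 : ε < 1 := by
      rw [hε, div_lt_one (by linarith)]; linarith
    have hlt : 1 / (1 - ε) < c := by
      rw [div_lt_iff₀ (by linarith)]
      have : c * ε = (c - 1) / 2 := by rw [hε]; field_simp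
      linarith
    have h1 : Tendsto (fun n : ℕ => 8 / (ε ^ 2 * (n : ℝ))) atTop (nhds 0) := by
      apply Tendsto.const_div_atTop
      exact Tendsto.const_mul_atTop (by positivity) tendsto_natCast_atTop_atTop
    have h2 : Tendsto (fun n : ℕ => 24 * (4 / ε) ^ 7 / ((Nat.log 2 n : ℝ) + 1)) atTop
        (nhds 0) := by
      apply Tendsto.const_div_atTop
      exact tendsto_atTop_add_const_right _ _ tendsto_log
    have h3 : Tendsto (fun n : ℕ => 1 / (1 - ε) + 8 / (ε ^ 2 * (n : ℝ)) +
        24 * (4 / ε) ^ 7 / ((Nat.log 2 n : ℝ) + 1)) atTop (nhds (1 / (1 - ε) + 0 + 0)) :=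
      (tendsto_const_nhds.add h1).add h2
    rw [add_zero, add_zero] at h3
    have h4 := h3.eventually (gt_mem_nhds hlt)
    have h5 : ∀ᶠ n : ℕ in atTop, 4 ≤ ε * n :=
      (Tendsto.const_mul_atTop hε0 tendsto_natCast_atTop_atTop).eventually_ge_atTop 4
    apply limsup_le_of_le (by isBoundedDefault)
    filter_upwards [h4, h5, eventually_ge_atTop 1] with n hn1 hn2 hn3
    rw [EReal.coe_le_coe_iff]
    exact (expFrag_le (𝒜 n) (hne n hn3) (hadd n) ε hε0 hε1 hn3 hn2).trans hn1.le

end Pool.Agent.Results.MP_572a82_pr.FragLimsup
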